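import Pool.Agent.Q36.IS.Sign
import Pool.Agent.Y167.Latt
import Pool.Agent.Y167.Bpf

/-!
# Rational isotropic classes from Lagrangian fibrations of torus quotients
-/

set_option autoImplicit false
set_option linter.unusedSectionVars false

namespace Q36.IS

open Pool.Agent.W594.SYZ2 Pool.Agent.W594.SYZ2.TQ

section Alt

variable {V : Type*} [NormedAddCommGroup V] [NormedSpace ℂ V] [FiniteDimensional ℂ V]
  {Γ : Subgroup (V ≃ᵃ[ℂ] V)}

/-- The two-form given by an alternating bilinear form. -/
noncomputable def mkAlt (B : V →ₗ[ℂ] V →ₗ[ℂ] ℂ) (hB : ∀ x, B x x = 0) : V [⋀^Fin 2]→L[ℂ] ℂ :=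
  { toFun := fun w => B (w 0) (w 1)
    map_update_add' := by
      intro _ w i x y
      fin_cases i
      · simp
      · simp
    map_update_smul' := by
      intro _ w i c x
      fin_cases i
      · simp
      · simp
    map_eq_zero_of_eq' := by
      intro w i j h hij
      have h1 : w 0 = w 1 := by
        fin_cases i <;> fin_cases j <;> simp_all
      change B (w 0) (w 1) = 0
      rw [h1, hB]
    cont := by
      let C : V →L[ℂ] (V →L[ℂ] ℂ) := LinearMap.toContinuousLinearMap
        ((LinearMap.toContinuousLinearMap : (V →ₗ[ℂ] ℂ) ≃ₗ[ℂ] (V →L[ℂ] ℂ)).toLinearMap ∘ₗ B)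
      change Continuous fun w : Fin 2 → V => C (w 0) (w 1)
      exact (C.continuous.comp (continuous_apply 0)).clm_apply (continuous_apply 1) }

theorem mkAlt_apply (B : V →ₗ[ℂ] V →ₗ[ℂ] ℂ) (hB : ∀ x, B x x = 0) (w : Fin 2 → V) :
    mkAlt B hB w = B (w 0) (w 1) := rfl

/-- Invariant alternating forms with a kernel vanish. -/
theorem no_two (hΓ : IsPrimitiveSymplectic Γ) (B : V →ₗ[ℂ] V →ₗ[ℂ] ℂ) (hB : ∀ x, B x x = 0)
    (hinv : ∀ γ ∈ Γ, ∀ x y, B (γ.linear x) (γ.linear y) = B x y) {x₀ : V} (hx : x₀ ≠ 0)
    (h0 : ∀ y, B x₀ y = 0) (x y : V) : B x y = 0 := by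
  obtain ⟨σ, hσ, hnd, huniq⟩ := hΓ.symp
  obtain ⟨c, hc⟩ := huniq (fun _ => mkAlt B hB) ⟨differentiable_const _, fun γ hγ v w => by
    rw [mkAlt_apply, mkAlt_apply, hinv γ hγ]⟩
  have h1 : ∀ x y, B x y = c * σ 0 ![x, y] := by
    intro x y
    have h2 : B x y = (fun _ => mkAlt B hB : V → V [⋀^Fin 2]→L[ℂ] ℂ) 0 ![x, y] := rfl
    rw [h2, hc]
    rfl
  have hc0 : c = 0 := by
    by_contra hne
    refine hx (hnd 0 x₀ fun y => ?_)
    have h2 := h1 x₀ y
    rw [h0] at h2
    exact (mul_eq_zero.1 h2.symm).resolve_left hne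
  rw [h1, hc0, zero_mul]

end Alt

section Real

variable {W : Type*} [NormedAddCommGroup W] [NormedSpace ℂ W]

/-- Real bilinear alternating forms. -/
structure IsAltR (E : W → W → ℝ) : Prop where
  add : ∀ u v w, E (u + v) w = E u w + E v w
  smul : ∀ (r : ℝ) (v w : W), E ((r : ℂ) • v) w = r * E v w
  swap : ∀ v w, E w v = -E v w

variable {E : W → W → ℝ}

theorem IsAltR.add_right (h : IsAltR E) (u v w : W) : E w (u + v) = E w u + E w v := by
  rw [h.swap (u + v) w, h.add, h.swap u w, h.swap v w]
  ring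

theorem IsAltR.neg_left (h : IsAltR E) (v w : W) : E (-v) w = -E v w := by
  have h1 := h.smul (-1) v w
  simpa using h1

theorem IsAltR.neg_right (h : IsAltR E) (v w : W) : E v (-w) = -E v w := by
  rw [h.swap, h.neg_left, ← h.swap]

theorem IsAltR.cpx (h : IsAltR E) (c : ℂ) (v w : W) :
    E (c • v) w = c.re * E v w + c.im * E (Complex.I • v) w := by
  have h1 : c • v = (c.re : ℂ) • v + (c.im : ℂ) • (Complex.I • v) := by
    rw [smul_smul, ← add_smul, Complex.re_add_im]
  rw [h1, h.add, h.smul, h.smul]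

theorem IsAltR.cpx_I (h : IsAltR E) (c : ℂ) (v w : W) :
    E (Complex.I • c • v) w = c.re * E (Complex.I • v) w - c.im * E v w := by
  rw [smul_comm, h.cpx, smul_smul, Complex.I_mul_I, neg_one_smul, h.neg_left]
  ring

/-- The hermitian form with imaginary part `E`. -/
noncomputable def Hf (E : W → W → ℝ) (v w : W) : ℂ := ⟨E (Complex.I • v) w, E v w⟩

theorem Hf_herm (h : IsAltR E) (hj : ∀ v w, E (Complex.I • v) (Complex.I • w) = E v w) :
    IsHermitian (Hf E) := by
  refine ⟨fun u v w => ?_, fun a v w => ?_, fun v w => ?_⟩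
  · apply Complex.ext
    · simp only [Hf, Complex.add_re, smul_add, h.add]
    · simp only [Hf, Complex.add_im, h.add]
  · apply Complex.ext
    · simp only [Hf, Complex.mul_re]
      rw [h.cpx_I]
    · simp only [Hf, Complex.mul_im]
      rw [h.cpx]
  · apply Complex.ext
    · simp only [Hf, Complex.conj_re]
      have h1 := hj v (Complex.I • w)
      rw [smul_smul, Complex.I_mul_I, neg_one_smul, h.neg_right] at h1
      rw [h.swap v, ← h1, neg_neg]
    · simp only [Hf, Complex.conj_im]
      exact h.swap v w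

/-- The complex bilinear form of type `(2, 0)`. -/
noncomputable def Bf (h : IsAltR E) {V : Type*} [NormedAddCommGroup V] [NormedSpace ℂ V]
    (π : V →ₗ[ℂ] W) : V →ₗ[ℂ] V →ₗ[ℂ] ℂ :=
  LinearMap.mk₂ ℂ (fun x y => (⟨E (π x) (π y) - E (Complex.I • π x) (Complex.I • π y),
      -(E (Complex.I • π x) (π y) + E (π x) (Complex.I • π y))⟩ : ℂ))
    (fun x x' y => by
      apply Complex.ext
      · simp only [map_add, smul_add, h.add, Complex.add_re]
        ring
      · simp only [map_add, smul_add, h.add, Complex.add_im]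
        ring)
    (fun c x y => by
      apply Complex.ext
      · simp only [map_smul, smul_eq_mul, Complex.mul_re]
        rw [h.cpx c (π x) (π y), h.cpx_I c (π x) (Complex.I • π y)]
        ring
      · simp only [map_smul, smul_eq_mul, Complex.mul_im]
        rw [h.cpx c (π x) (Complex.I • π y), h.cpx_I c (π x) (π y)]
        ring)
    (fun x y y' => by
      apply Complex.ext
      · simp only [map_add, smul_add, h.add_right, Complex.add_re]
        ring
      · simp only [map_add, smul_add, h.add_right, Complex.add_im]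
        ring)
    (fun c x y => by
      apply Complex.ext
      · simp only [map_smul, smul_eq_mul, Complex.mul_re]
        rw [h.swap (c • π y) (π x), h.swap (Complex.I • c • π y) (Complex.I • π x),
          h.cpx c (π y) (π x), h.cpx_I c (π y) (Complex.I • π x)]
        have h1 := h.swap (π x) (π y)
        have h2 := h.swap (π x) (Complex.I • π y)
        have h3 := h.swap (Complex.I • π x) (π y)
        have h4 := h.swap (Complex.I • π x) (Complex.I • π y)
        rw [h1, h2, h3, h4]
        ring
      · simp only [map_smul, smul_eq_mul, Complex.mul_im]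
        rw [h.swap (c • π y) (Complex.I • π x), h.swap (Complex.I • c • π y) (π x),
          h.cpx c (π y) (Complex.I • π x), h.cpx_I c (π y) (π x)]
        have h1 := h.swap (π x) (π y)
        have h2 := h.swap (π x) (Complex.I • π y)
        have h3 := h.swap (Complex.I • π x) (π y)
        have h4 := h.swap (Complex.I • π x) (Complex.I • π y)
        rw [h1, h2, h3, h4]
        ring)

theorem Bf_apply (h : IsAltR E) {V : Type*} [NormedAddCommGroup V] [NormedSpace ℂ V]
    (π : V →ₗ[ℂ] W) (x y : V) : Bf h π x y =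
      (⟨E (π x) (π y) - E (Complex.I • π x) (Complex.I • π y),
      -(E (Complex.I • π x) (π y) + E (π x) (Complex.I • π y))⟩ : ℂ) := rfl

/-- Invariant real forms are of type `(1, 1)`. -/
theorem jj {V : Type*} [NormedAddCommGroup V] [NormedSpace ℂ V] [FiniteDimensional ℂ V]
    {Γ : Subgroup (V ≃ᵃ[ℂ] V)} (hΓ : IsPrimitiveSymplectic Γ) (h : IsAltR E) {π : V →ₗ[ℂ] W}
    (hs : Function.Surjective π)
    (hinv : ∀ γ ∈ Γ, ∀ x y, E (π (γ.linear x)) (π (γ.linear y)) = E (π x) (π y)) {x₀ : V}
    (hx : x₀ ≠ 0) (h0 : π x₀ = 0) (v w : W) : E (Complex.I • v) (Complex.I • w) = E v w := by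
  have hz : ∀ w, E 0 w = 0 := fun w => by
    have := h.smul 0 0 w
    simpa using this
  have h1 := no_two hΓ (Bf h π) (fun x => by
      rw [Bf_apply]
      apply Complex.ext
      · have h2 := h.swap (π x) (π x)
        have h3 := h.swap (Complex.I • π x) (Complex.I • π x)
        change E (π x) (π x) - E (Complex.I • π x) (Complex.I • π x) = 0
        linarith
      · have h2 := h.swap (π x) (Complex.I • π x)
        change -(E (Complex.I • π x) (π x) + E (π x) (Complex.I • π x)) = 0
        linarith) (fun γ hγ x y => by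
      rw [Bf_apply, Bf_apply]
      have h2 : ∀ z, Complex.I • π (γ.linear z) = π (γ.linear (Complex.I • z)) := fun z => by
        rw [map_smul, map_smul]
      simp only [h2, hinv γ hγ]
      simp only [map_smul]) hx (fun y => by
      rw [Bf_apply, h0]
      simp [hz]
      rfl)
  obtain ⟨x, rfl⟩ := hs v
  obtain ⟨y, rfl⟩ := hs w
  have h2 := congrArg Complex.re (h1 x y)
  rw [Bf_apply] at h2
  change E (π x) (π y) - E (Complex.I • π x) (Complex.I • π y) = 0 at h2
  linarith

end Real

end Q36.IS
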