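import Pool.Agent.W594.SYZ.Defs2

/-!
# The dual of a line bundle on a torus quotient
-/

set_option autoImplicit false

namespace Q36.IS

open Pool.Agent.W594.SYZ2

/-- The dual line bundle. -/
noncomputable def dual {V : Type*} [NormedAddCommGroup V] [NormedSpace ℂ V]
    {Γ : Subgroup (V ≃ᵃ[ℂ] V)} (L : LineBundle Γ) : LineBundle Γ where
  e := fun γ v => (L.e γ v)⁻¹
  holo := fun γ v => (L.holo γ v).inv (L.ne_zero γ v)
  ne_zero := fun γ v => inv_ne_zero (L.ne_zero γ v)
  mul := fun γ δ v => by rw [L.mul, mul_inv]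
  stab := fun γ v h => by rw [L.stab γ v h, inv_one]

end Q36.IS
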