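import Pool.Agent.Q36.IS.Base
import Pool.Agent.Q36.IS.Dual

/-!
# Lagrangian fibrations of primitive symplectic torus quotients and isotropic classes
-/

set_option autoImplicit false
set_option linter.unusedSectionVars false

namespace Q36.IS

open Pool.Agent.W594.SYZ2 Pool.Agent.W594.SYZ2.TQ Q36.EF

section E

variable {W : Type*} [NormedAddCommGroup W] [NormedSpace ℂ W] [FiniteDimensional ℂ W]
  {Δ : Subgroup (W ≃ᵃ[ℂ] W)}

/-- A nonzero invariant integral real form. -/
theorem exists_E (hΔ : IsTorusQuotient Δ) (hW : 0 < Module.finrank ℂ W) :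
    ∃ E : W → W → ℝ, IsAltR E ∧
      (∀ δ ∈ Δ, ∀ v w, E (δ.linear v) (δ.linear w) = E v w) ∧
      (∀ b ∈ latt Δ, ∀ c ∈ latt Δ, ∃ n : ℤ, E b c = n) ∧ ∃ v w, E v w ≠ 0 := by
  have := finite_Lin hΔ
  have : Fintype (Lin Δ) := Fintype.ofFinite _
  have : FiniteDimensional ℝ W := FiniteDimensional.complexToReal W
  obtain ⟨r, x, hx⟩ := Pool.Agent.Y167.basis_of_discrete (latt Δ) hΔ.discrete hΔ.span_top
  obtain ⟨H₀, h₀, hp, hinv₀⟩ := exists_pos hΔ
  have hxs : ∀ (t : ℝ) (v : W) (i : Fin r), x.repr ((t : ℂ) • v) i = t * x.repr v i := by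
    intro t v i
    have h1 : (t : ℂ) • v = t • v := rfl
    rw [h1, map_smul, Finsupp.smul_apply, smul_eq_mul]
  let e : Fin r → Fin r → W → W → ℝ := fun i j v w =>
    ∑ g : Lin Δ, (x.repr (g.1 v) i * x.repr (g.1 w) j - x.repr (g.1 v) j * x.repr (g.1 w) i)
  have hal : ∀ i j, IsAltR (e i j) := by
    intro i j
    refine ⟨fun u v w => ?_, fun t v w => ?_, fun v w => ?_⟩
    · simp only [e]
      rw [← Finset.sum_add_distrib]
      refine Finset.sum_congr rfl fun g _ => ?_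
      rw [map_add, map_add, Finsupp.add_apply, Finsupp.add_apply]
      ring
    · simp only [e]
      rw [Finset.mul_sum]
      refine Finset.sum_congr rfl fun g _ => ?_
      rw [map_smul, hxs, hxs]
      ring
    · simp only [e]
      rw [← Finset.sum_neg_distrib]
      refine Finset.sum_congr rfl fun g _ => ?_
      ring
  have hin : ∀ i j, ∀ δ ∈ Δ, ∀ v w, e i j (δ.linear v) (δ.linear w) = e i j v w := by
    intro i j δ hδ v w
    let h : Lin Δ := ⟨δ.linear, δ, hδ, rfl⟩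
    exact Fintype.sum_equiv (Equiv.mulRight h) _ _ fun g => rfl
  have hint : ∀ i j, ∀ b ∈ latt Δ, ∀ c ∈ latt Δ, ∃ n : ℤ, e i j b c = n := by
    intro i j b hb c hc
    have h1 : ∀ (g : Lin Δ) (b : W), b ∈ latt Δ → ∀ i, ∃ n : ℤ, x.repr (g.1 b) i = n := by
      rintro ⟨g, δ, hδ, rfl⟩ b hb i
      exact (hx _).1 (latt_inv δ hδ hb) i
    choose n hn using fun (g : Lin Δ) (i : Fin r) => h1 g b hb i
    choose m hm using fun (g : Lin Δ) (i : Fin r) => h1 g c hc i
    refine ⟨∑ g : Lin Δ, (n g i * m g j - n g j * m g i), ?_⟩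
    push_cast
    refine Finset.sum_congr rfl fun g _ => ?_
    rw [hn, hn, hm, hm]
  by_contra hcon
  have hz : ∀ i j v w, e i j v w = 0 := by
    intro i j v w
    by_contra hne
    exact hcon ⟨e i j, hal i j, hin i j, hint i j, v, w, hne⟩
  -- the imaginary part of the invariant positive form
  let F : W →ₗ[ℝ] W →ₗ[ℝ] ℝ := LinearMap.mk₂ ℝ (fun v w => (H₀ v w).im)
    (fun u v w => by rw [h₀.add_left, Complex.add_im])
    (fun t v w => by
      have h1 : t • v = (t : ℂ) • v := rfl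
      rw [h1, h₀.smul_left, Complex.im_ofReal_mul, smul_eq_mul])
    (fun u v w => by rw [h_add_right h₀, Complex.add_im])
    (fun t v w => by
      have h1 : t • w = (t : ℂ) • w := rfl
      rw [h1, h_smul_right h₀, Complex.conj_ofReal, Complex.im_ofReal_mul, smul_eq_mul])
  have hF : ∀ v w, F v w = (H₀ v w).im := fun v w => rfl
  have hexp : ∀ v w, F v w = ∑ i, ∑ j, x.repr v i * x.repr w j * F (x i) (x j) := by
    intro v w
    have a1 : F v = ∑ i, x.repr v i • F (x i) := by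
      conv_lhs => rw [← x.sum_repr v]
      rw [map_sum]
      exact Finset.sum_congr rfl fun i _ => map_smul _ _ _
    have a2 : ∀ i, F (x i) w = ∑ j, x.repr w j • F (x i) (x j) := by
      intro i
      conv_lhs => rw [← x.sum_repr w]
      rw [map_sum]
      exact Finset.sum_congr rfl fun j _ => map_smul _ _ _
    rw [a1, LinearMap.sum_apply]
    refine Finset.sum_congr rfl fun i _ => ?_
    rw [LinearMap.smul_apply, a2, Finset.smul_sum]
    refine Finset.sum_congr rfl fun j _ => ?_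
    rw [smul_eq_mul, smul_eq_mul]
    ring
  have hFs : ∀ v w, F w v = -F v w := fun v w => h_im_symm h₀ v w
  have hFg : ∀ (g : Lin Δ) v w, F (g.1 v) (g.1 w) = F v w := by
    rintro ⟨g, δ, hδ, rfl⟩ v w
    change (H₀ (δ.linear v) (δ.linear w)).im = (H₀ v w).im
    rw [hinv₀ δ hδ]
  have hzero : ∀ v w, F v w = 0 := by
    intro v w
    have h1 : ∑ g : Lin Δ, F (g.1 v) (g.1 w) = (Fintype.card (Lin Δ) : ℝ) * F v w := by
      rw [Finset.sum_congr rfl (fun g _ => hFg g v w), Finset.sum_const, Finset.card_univ,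
        nsmul_eq_mul]
    let S : Fin r → Fin r → ℝ := fun i j => ∑ g : Lin Δ, x.repr (g.1 v) i * x.repr (g.1 w) j
    have hS : ∀ i j, S i j = S j i := by
      intro i j
      have h2 := hz i j v w
      simp only [e, Finset.sum_sub_distrib] at h2
      simp only [S]
      rw [sub_eq_zero] at h2
      exact h2
    have h3 : ∑ g : Lin Δ, F (g.1 v) (g.1 w) = ∑ i, ∑ j, S i j * F (x i) (x j) := by
      rw [Finset.sum_congr rfl (fun g _ => hexp (g.1 v) (g.1 w)), Finset.sum_comm]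
      refine Finset.sum_congr rfl fun i _ => ?_
      rw [Finset.sum_comm]
      refine Finset.sum_congr rfl fun j _ => ?_
      simp only [S]
      rw [Finset.sum_mul]
    have h4 : ∑ i, ∑ j, S i j * F (x i) (x j) = -∑ i, ∑ j, S i j * F (x i) (x j) := by
      conv_lhs => rw [Finset.sum_comm]
      rw [← Finset.sum_neg_distrib]
      refine Finset.sum_congr rfl fun i _ => ?_
      rw [← Finset.sum_neg_distrib]
      refine Finset.sum_congr rfl fun j _ => ?_
      rw [hS j i, hFs (x i) (x j)]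
      ring
    have h5 : (Fintype.card (Lin Δ) : ℝ) * F v w = 0 := by
      rw [← h1, h3]
      linarith
    exact (mul_eq_zero.1 h5).resolve_left (by exact_mod_cast Fintype.card_ne_zero)
  obtain ⟨v, hv⟩ : ∃ v : W, v ≠ 0 := by
    have : Nontrivial W := Module.finrank_pos_iff.1 hW
    exact exists_ne 0
  have h1 := hzero (Complex.I • v) v
  rw [hF, h₀.smul_left, Complex.mul_im, Complex.I_re, Complex.I_im, zero_mul, one_mul,
    zero_add] at h1
  have h2 := hp v hv
  rw [h1] at h2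
  exact lt_irrefl _ h2

end E

variable {V : Type*} [NormedAddCommGroup V] [NormedSpace ℂ V] [FiniteDimensional ℂ V]
  {Γ : Subgroup (V ≃ᵃ[ℂ] V)}

/-- The kernel of a degenerate invariant hermitian form containing the kernel of a Lagrangian
fibration. -/
theorem ker_eq (hΓ : IsPrimitiveSymplectic Γ) {W : Type*} [NormedAddCommGroup W]
    [NormedSpace ℂ W] [FiniteDimensional ℂ W] {Δ : Subgroup (W ≃ᵃ[ℂ] W)} {π : V →ₗ[ℂ] W}
    (hlag : IsLagrangianFibration Γ Δ π) {H : V → V → ℂ} (hH : IsHermitian H)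
    (hinv : ∀ γ ∈ Γ, ∀ v w, H (γ.linear v) (γ.linear w) = H v w)
    (h0 : ∀ v, π v = 0 → ∀ w, H v w = 0) (hne : ∃ v w, H v w ≠ 0) (v : V) :
    π v = 0 ↔ ∀ w, H v w = 0 := by
  have hle : LinearMap.ker π ≤ ker hH := fun v hv => h0 v hv
  have hdim := hlag.dim
  have hW := hlag.dim_pos
  have h1 := π.finrank_range_add_finrank_ker
  rw [LinearMap.range_eq_top.2 hlag.surj, finrank_top] at h1
  have hK : ∀ γ ∈ Γ, ∀ v ∈ ker hH, γ.linear v ∈ ker hH := by
    intro γ hγ v hv w
    have h2 := hinv γ hγ v (γ.linear.symm w)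
    rw [LinearEquiv.apply_symm_apply, hv] at h2
    exact h2
  have hbot : ker hH ≠ ⊥ := by
    intro h
    rw [h, le_bot_iff] at hle
    rw [hle, finrank_bot] at h1
    omega
  have htop : ker hH ≠ ⊤ := by
    intro h
    obtain ⟨v, w, hvw⟩ := hne
    have h2 : v ∈ ker hH := by rw [h]; trivial
    exact hvw (h2 w)
  obtain ⟨-, h2⟩ := lagr hΓ (ker hH) hK hbot htop
  have h3 : LinearMap.ker π = ker hH := Submodule.eq_of_le_of_finrank_eq hle (by omega)
  have h4 : v ∈ LinearMap.ker π ↔ v ∈ ker hH := by rw [h3]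
  exact h4

theorem exists_ker {W : Type*} [NormedAddCommGroup W]
    [NormedSpace ℂ W] [FiniteDimensional ℂ W] {Δ : Subgroup (W ≃ᵃ[ℂ] W)} {π : V →ₗ[ℂ] W}
    (hlag : IsLagrangianFibration Γ Δ π) : ∃ x : V, x ≠ 0 ∧ π x = 0 := by
  have hdim := hlag.dim
  have hW := hlag.dim_pos
  have h1 := π.finrank_range_add_finrank_ker
  rw [LinearMap.range_eq_top.2 hlag.surj, finrank_top] at h1
  have h2 : LinearMap.ker π ≠ ⊥ := by
    intro h
    rw [h, finrank_bot] at h1
    omega
  obtain ⟨x, hx, hx0⟩ := (Submodule.ne_bot_iff _).1 h2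
  exact ⟨x, hx0, hx⟩

/-- Every Lagrangian fibration onto a torus quotient is defined by a nef line bundle. -/
theorem exists_lb (hΓ : IsPrimitiveSymplectic Γ) {W : Type*} [NormedAddCommGroup W]
    [NormedSpace ℂ W] [FiniteDimensional ℂ W] {Δ : Subgroup (W ≃ᵃ[ℂ] W)} {π : V →ₗ[ℂ] W}
    (hlag : IsLagrangianFibration Γ Δ π) : ∃ (L : LineBundle Γ) (H : V → V → ℂ),
      IsChernForm L H ∧ IsNefForm H ∧ IsDegenerateForm H ∧ (∃ v w, H v w ≠ 0) ∧
      Defines (L.pow (N (Module.finrank ℂ V)))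
        (fun v w => (N (Module.finrank ℂ V) : ℂ) * H v w) Δ π := by
  obtain ⟨E, hE, hEi, hEn, v₁, w₁, hE1⟩ := exists_E hlag.base hlag.dim_pos
  obtain ⟨x₀, hx₀, hπx₀⟩ := exists_ker hlag
  have hlin : ∀ γ ∈ Γ, ∃ δ ∈ Δ, ∀ v, π (γ.linear v) = δ.linear (π v) := by
    intro γ hγ
    obtain ⟨δ, hδ, h⟩ := hlag.maps γ hγ
    refine ⟨δ, hδ, fun v => ?_⟩
    have h1 := h v
    have h2 := h 0
    rw [act δ (π v), act γ v, map_add] at h1
    rw [map_zero] at h2
    rw [← h2] at h1
    exact (add_right_cancel h1).symm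
  have hinv : ∀ γ ∈ Γ, ∀ x y, E (π (γ.linear x)) (π (γ.linear y)) = E (π x) (π y) := by
    intro γ hγ x y
    obtain ⟨δ, hδ, h⟩ := hlin γ hγ
    rw [h, h, hEi δ hδ]
  have hj := jj hΓ hE hlag.surj hinv hx₀ hπx₀
  have hHf := Hf_herm hE hj
  let H₁ : V → V → ℂ := fun v w => Hf E (π v) (π w)
  have h1 : IsHermitian H₁ := ⟨fun u v w => by
      change Hf E (π (u + v)) (π w) = _
      rw [map_add, hHf.add_left], fun a v w => by
      change Hf E (π (a • v)) (π w) = _
      rw [map_smul, hHf.smul_left], fun v w => hHf.symm _ _⟩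
  have h1n : IsHermitian fun v w => -H₁ v w := by
    refine ⟨fun u v w => ?_, fun a v w => ?_, fun v w => ?_⟩
    · change -H₁ (u + v) w = -H₁ u w + -H₁ v w
      rw [h1.add_left]
      ring
    · change -H₁ (a • v) w = a * -H₁ v w
      rw [h1.smul_left]
      ring
    · change -H₁ w v = starRingEnd ℂ (-H₁ v w)
      rw [h1.symm v w, map_neg]
  have h1i : ∀ γ ∈ Γ, ∀ v w, H₁ (γ.linear v) (γ.linear w) = H₁ v w := by
    intro γ hγ v w
    apply Complex.ext
    · change E (Complex.I • π (γ.linear v)) (π (γ.linear w)) = E (Complex.I • π v) (π w)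
      rw [← map_smul, ← map_smul, hinv γ hγ, map_smul]
    · exact hinv γ hγ v w
  have hz : ∀ w, Hf E 0 w = 0 := fun w => h_zero_left hHf w
  have h1k : ∀ v, π v = 0 → ∀ w, H₁ v w = 0 := by
    intro v hv w
    change Hf E (π v) (π w) = 0
    rw [hv, hz]
  have h1d : IsDegenerateForm H₁ := ⟨x₀, hx₀, h1k x₀ hπx₀⟩
  obtain ⟨v₂, rfl⟩ := hlag.surj v₁
  obtain ⟨w₂, rfl⟩ := hlag.surj w₁
  have h1ne : H₁ v₂ w₂ ≠ 0 := by
    intro h
    exact hE1 (congrArg Complex.im h)
  have hlat : ∀ b ∈ latt Γ, π b ∈ latt Δ := by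
    intro b hb
    obtain ⟨δ, hδ, h⟩ := hlag.maps _ hb
    have h3 : δ = AffineEquiv.constVAdd ℂ W (π b) := by
      apply AffineEquiv.ext
      intro w
      obtain ⟨v, rfl⟩ := hlag.surj w
      rw [h]
      change π (b + v) = π b + π v
      rw [map_add]
    rw [mem_latt, ← h3]
    exact hδ
  have h1t : ∀ b ∈ latt Γ, ∀ c ∈ latt Γ, ∃ n : ℤ, (H₁ b c).im = n := fun b hb c hc =>
    hEn _ (hlat b hb) _ (hlat c hc)
  -- choose the sign
  obtain ⟨H, h2, h2n, h2i, h2k, h2ne, h2t⟩ : ∃ H : V → V → ℂ, IsHermitian H ∧ IsNefForm H ∧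
      (∀ γ ∈ Γ, ∀ v w, H (γ.linear v) (γ.linear w) = H v w) ∧
      (∀ v, π v = 0 → ∀ w, H v w = 0) ∧ (∃ v w, H v w ≠ 0) ∧
      ∀ b ∈ latt Γ, ∀ c ∈ latt Γ, ∃ n : ℤ, (H b c).im = n := by
    rcases sign hΓ h1 h1i h1d with h | h
    · exact ⟨H₁, h1, h, h1i, h1k, ⟨_, _, h1ne⟩, h1t⟩
    · refine ⟨fun v w => -H₁ v w, h1n, h, fun γ hγ v w => ?_, fun v hv w => ?_,
        ⟨_, _, neg_ne_zero.2 h1ne⟩, fun b hb c hc => ?_⟩
      · change -H₁ _ _ = -H₁ _ _
        rw [h1i γ hγ]
      · change -H₁ v w = 0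
        rw [h1k v hv, neg_zero]
      · obtain ⟨n, hn⟩ := h1t b hb c hc
        refine ⟨-n, ?_⟩
        change (-H₁ b c).im = _
        rw [Complex.neg_im, hn]
        push_cast
        rfl
  obtain ⟨m, hm, L, hc, -⟩ := Pool.Agent.Y167.exists_bpf hΓ.torus h2 h2n h2i (k := 1) one_pos
    (fun b hb c hc => by
      obtain ⟨n, hn⟩ := h2t b hb c hc
      exact ⟨n, by rw [hn]; simp⟩)
  have hm0 : (m : ℂ) ≠ 0 := by exact_mod_cast hm.ne'
  have hker := ker_eq hΓ hlag h2 h2i h2k h2ne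
  have hn : IsNefForm fun v w => (m : ℂ) * H v w := by
    intro v
    have : ((m : ℂ) * H v v).re = (m : ℝ) * (H v v).re := by
      rw [← Complex.ofReal_natCast, Complex.re_ofReal_mul]
    rw [this]
    exact mul_nonneg (Nat.cast_nonneg _) (h2n v)
  obtain ⟨v₃, w₃, h3⟩ := h2ne
  refine ⟨L, _, hc, hn, ⟨x₀, hx₀, fun w => ?_⟩, ⟨v₃, w₃, mul_ne_zero hm0 h3⟩, ?_⟩
  · change (m : ℂ) * H x₀ w = 0
    rw [h2k x₀ hπx₀, mul_zero]
  refine defines_of_hone hΓ.torus hΓ.h01 hc hn hlag.surj hlag.maps hlag.onto fun v => ?_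
  rw [hker]
  exact ⟨fun h w => by rw [h, mul_zero], fun h w => (mul_eq_zero.1 (h w)).resolve_left hm0⟩

theorem chern_dual {L : LineBundle Γ} {H : V → V → ℂ} (hc : IsChernForm L H) :
    IsChernForm (dual L) fun v w => -H v w := by
  obtain ⟨hH, F, hF, hFe⟩ := hc
  refine ⟨⟨fun u v w => ?_, fun a v w => ?_, fun v w => ?_⟩, fun v => -F v, hF.neg,
    fun γ v => ?_⟩
  · change -H (u + v) w = -H u w + -H v w
    rw [hH.add_left]
    ring
  · change -H (a • v) w = a * -H v w
    rw [hH.smul_left]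
    ring
  · change -H w v = starRingEnd ℂ (-H v w)
    rw [hH.symm v w, map_neg]
  · change ‖(L.e γ v)⁻¹‖ ^ 2 = _
    rw [norm_inv, inv_pow, hFe γ v, ← Real.exp_neg]
    congr 1
    simp only [Complex.neg_re]
    ring

/-- The Chern form is invariant. -/
theorem chern_inv {L : LineBundle Γ} {H : V → V → ℂ} (hc : IsChernForm L H) :
    ∀ γ ∈ Γ, ∀ v w, H (γ.linear v) (γ.linear w) = H v w := by
  obtain ⟨hH, F, hF, hFe⟩ := hc
  intro γ hγ v w
  exact h_inv hH (F := F) (L := L) ⟨hF, hFe⟩ ⟨γ, hγ⟩ v w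

/-- Semidefinite invariant forms with the same kernel are proportional. -/
theorem proportional (hΓ : IsPrimitiveSymplectic Γ) {H H' : V → V → ℂ} (hH : IsHermitian H)
    (hH' : IsHermitian H') (hn : IsNefForm H) (hn' : IsNefForm H')
    (hi : ∀ γ ∈ Γ, ∀ v w, H (γ.linear v) (γ.linear w) = H v w)
    (hi' : ∀ γ ∈ Γ, ∀ v w, H' (γ.linear v) (γ.linear w) = H' v w)
    (hk : ∀ v, (∀ w, H v w = 0) ↔ ∀ w, H' v w = 0) (hd : IsDegenerateForm H)
    (hne : ∃ v w, H v w ≠ 0) : ∃ t : ℝ, 0 < t ∧ ∀ v w, H v w = t * H' v w := by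
  obtain ⟨x₀, hx₀, h0⟩ := hd
  obtain ⟨x, y, hxy⟩ := hne
  have hx : x ∉ ker hH := fun h => hxy (h y)
  have hpos : 0 < (H x x).re := lt_of_le_of_ne (hn x) fun h =>
    hx fun w => h_isotropic hH hn x h.symm w
  have hpos' : 0 < (H' x x).re := lt_of_le_of_ne (hn' x) fun h =>
    hx ((hk x).2 fun w => h_isotropic hH' hn' x h.symm w)
  set t := (H x x).re / (H' x x).re with ht
  refine ⟨t, div_pos hpos hpos', ?_⟩
  have hK : IsHermitian fun v w => H v w - t * H' v w := by
    refine ⟨fun u v w => ?_, fun a v w => ?_, fun v w => ?_⟩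
    · change H (u + v) w - t * H' (u + v) w = (H u w - t * H' u w) + (H v w - t * H' v w)
      rw [hH.add_left, hH'.add_left]
      ring
    · change H (a • v) w - t * H' (a • v) w = a * (H v w - t * H' v w)
      rw [hH.smul_left, hH'.smul_left]
      ring
    · change H w v - t * H' w v = starRingEnd ℂ (H v w - t * H' v w)
      rw [hH.symm v w, hH'.symm v w, map_sub, map_mul, Complex.conj_ofReal]
  have hKi : ∀ γ ∈ Γ, ∀ v w, (fun v w => H v w - t * H' v w) (γ.linear v) (γ.linear w)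
      = (fun v w => H v w - t * H' v w) v w := by
    intro γ hγ v w
    change H _ _ - t * H' _ _ = H _ _ - t * H' _ _
    rw [hi γ hγ, hi' γ hγ]
  have hKx : (H x x - t * H' x x).re = 0 := by
    rw [Complex.sub_re, Complex.re_ofReal_mul, ht, div_mul_cancel₀ _ hpos'.ne', sub_self]
  have hk1 : ∀ v, (∀ w, H v w = 0) → ∀ w, H v w - t * H' v w = 0 := by
    intro v hv w
    rw [hv, (hk v).1 hv, mul_zero, sub_zero]
  have hxK : ∀ w, H x w - t * H' x w = 0 := by
    rcases sign hΓ hK hKi ⟨x₀, hx₀, hk1 x₀ h0⟩ with h | h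
    · exact fun w => h_isotropic hK h x hKx w
    · intro w
      have hKn : IsHermitian fun v w => -(H v w - t * H' v w) := by
        refine ⟨fun u v w => ?_, fun a v w => ?_, fun v w => ?_⟩
        · have := hK.add_left u v w
          change -(H (u + v) w - t * H' (u + v) w)
            = -(H u w - t * H' u w) + -(H v w - t * H' v w)
          change H (u + v) w - t * H' (u + v) w = (H u w - t * H' u w) + (H v w - t * H' v w) at this
          rw [this]
          ring
        · have := hK.smul_left a v w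
          change -(H (a • v) w - t * H' (a • v) w) = a * -(H v w - t * H' v w)
          change H (a • v) w - t * H' (a • v) w = a * (H v w - t * H' v w) at this
          rw [this]
          ring
        · have := hK.symm v w
          change -(H w v - t * H' w v) = starRingEnd ℂ (-(H v w - t * H' v w))
          change H w v - t * H' w v = starRingEnd ℂ (H v w - t * H' v w) at this
          rw [this, map_neg]
      have h2 : (-(H x x - t * H' x x)).re = 0 := by rw [Complex.neg_re, hKx, neg_zero]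
      have h3 := h_isotropic hKn h x h2 w
      exact neg_eq_zero.1 h3
  have hker : ker hK = ⊤ := by
    by_contra htop
    have hbot : ker hK ≠ ⊥ := fun h => by
      have h2 : x₀ ∈ ker hK := hk1 x₀ h0
      rw [h] at h2
      exact hx₀ h2
    have hbot' : ker hH ≠ ⊥ := fun h => by
      have h2 : x₀ ∈ ker hH := h0
      rw [h] at h2
      exact hx₀ h2
    have htop' : ker hH ≠ ⊤ := fun h => hx (by rw [h]; trivial)
    have hpres : ∀ {K : V → V → ℂ} (hK : IsHermitian K),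
        (∀ γ ∈ Γ, ∀ v w, K (γ.linear v) (γ.linear w) = K v w) →
        ∀ γ ∈ Γ, ∀ v ∈ ker hK, γ.linear v ∈ ker hK := by
      intro K hK hi γ hγ v hv w
      have h2 := hi γ hγ v (γ.linear.symm w)
      rw [LinearEquiv.apply_symm_apply, hv] at h2
      exact h2
    have h2 := (lagr hΓ (ker hK) (hpres hK hKi) hbot htop).2
    have h3 := (lagr hΓ (ker hH) (hpres hH hi) hbot' htop').2
    have hle : ker hH ≤ ker hK := fun v hv => hk1 v hv
    have h4 : ker hH = ker hK := Submodule.eq_of_le_of_finrank_eq hle (by omega)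
    exact hx (by rw [h4]; exact hxK)
  intro v w
  have h2 : v ∈ ker hK := by rw [hker]; trivial
  exact sub_eq_zero.1 (h2 w)

omit [FiniteDimensional ℂ V] in
/-- The kernel of the Chern form of a line bundle which defines a fibration. -/
theorem ker_of_defines {k : ℕ} (hk : 1 ≤ k) {M : LineBundle Γ} {H : V → V → ℂ} {n : ℕ}
    {Δ : Subgroup ((Fin n → ℂ) ≃ᵃ[ℂ] (Fin n → ℂ))} {π : V →ₗ[ℂ] (Fin n → ℂ)}
    (h : Defines M (fun v w => (k : ℂ) * H v w) Δ π) (v : V) : π v = 0 ↔ ∀ w, H v w = 0 := by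
  obtain ⟨A, HA, _, hA, hp, hH, -⟩ := h.pullback
  exact ker_of_pull hA.1 hp hk hH v

/-- Two Lagrangian fibrations are isomorphic or transversal. -/
theorem transversal (hΓ : IsPrimitiveSymplectic Γ) {W W' : Type*} [NormedAddCommGroup W]
    [NormedSpace ℂ W] [FiniteDimensional ℂ W] [NormedAddCommGroup W']
    [NormedSpace ℂ W'] [FiniteDimensional ℂ W'] {Δ : Subgroup (W ≃ᵃ[ℂ] W)} {π : V →ₗ[ℂ] W}
    {Δ' : Subgroup (W' ≃ᵃ[ℂ] W')} {π' : V →ₗ[ℂ] W'} (hlag : IsLagrangianFibration Γ Δ π)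
    (hlag' : IsLagrangianFibration Γ Δ' π') :
    (∀ v, π v = 0 → π' v = 0 → v = 0) ∨
      ∃ φ : W ≃ₗ[ℂ] W', (∀ v, π' v = φ (π v)) ∧
        ∀ δ' : W' ≃ᵃ[ℂ] W', δ' ∈ Δ' ↔ ∃ δ ∈ Δ, ∀ w, δ' (φ w) = φ (δ w) := by
  by_cases hcon : ∀ v, π v = 0 → π' v = 0 → v = 0
  · exact Or.inl hcon
  · refine Or.inr (unique_fib (lag_fib hlag) (lag_fib hlag') ?_)
    push Not at hcon
    obtain ⟨x, hx, hx', hx0⟩ := hcon
    have hlin : ∀ {W : Type _} [NormedAddCommGroup W] [NormedSpace ℂ W]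
        {Δ : Subgroup (W ≃ᵃ[ℂ] W)} {π : V →ₗ[ℂ] W}, IsLagrangianFibration Γ Δ π →
        ∀ γ ∈ Γ, ∀ v, π v = 0 → π (γ.linear v) = 0 := by
      intro W _ _ Δ π hlag γ hγ v hv
      obtain ⟨δ, hδ, h⟩ := hlag.maps γ hγ
      have h1 := h v
      have h2 := h 0
      rw [act γ v, map_add, hv] at h1
      rw [map_zero] at h2
      rw [h2] at h1
      exact (right_eq_add.1 h1)
    have hlin' : ∀ γ ∈ Γ, ∀ v, π' v = 0 → π' (γ.linear v) = 0 := by
      intro γ hγ v hv
      obtain ⟨δ, hδ, h⟩ := hlag'.maps γ hγ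
      have h1 := h v
      have h2 := h 0
      rw [act γ v, map_add, hv] at h1
      rw [map_zero] at h2
      rw [h2] at h1
      exact (right_eq_add.1 h1)
    have hK : ∀ γ ∈ Γ, ∀ v ∈ LinearMap.ker π ⊓ LinearMap.ker π',
        γ.linear v ∈ LinearMap.ker π ⊓ LinearMap.ker π' := fun γ hγ v hv =>
      ⟨hlin hlag γ hγ v hv.1, hlin' γ hγ v hv.2⟩
    have hdim := hlag.dim
    have hW := hlag.dim_pos
    have h1 := π.finrank_range_add_finrank_ker
    rw [LinearMap.range_eq_top.2 hlag.surj, finrank_top] at h1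
    have hdim' := hlag'.dim
    have h1' := π'.finrank_range_add_finrank_ker
    rw [LinearMap.range_eq_top.2 hlag'.surj, finrank_top] at h1'
    have hbot : LinearMap.ker π ⊓ LinearMap.ker π' ≠ ⊥ := fun h => by
      have h2 : x ∈ LinearMap.ker π ⊓ LinearMap.ker π' := ⟨hx, hx'⟩
      rw [h] at h2
      exact hx0 h2
    have htop : LinearMap.ker π ⊓ LinearMap.ker π' ≠ ⊤ := fun h => by
      have h2 : LinearMap.ker π = ⊤ := top_le_iff.1 (h ▸ inf_le_left)
      rw [h2, finrank_top] at h1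
      omega
    have h2 := (lagr hΓ _ hK hbot htop).2
    have h3 : LinearMap.ker π ⊓ LinearMap.ker π' = LinearMap.ker π :=
      Submodule.eq_of_le_of_finrank_eq inf_le_left (by omega)
    have h4 : LinearMap.ker π ⊓ LinearMap.ker π' = LinearMap.ker π' :=
      Submodule.eq_of_le_of_finrank_eq inf_le_right (by omega)
    intro v
    have h5 : v ∈ LinearMap.ker π ↔ v ∈ LinearMap.ker π' := by rw [← h3, h4]
    exact h5

end Q36.IS
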