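import Pool.Agent.Q36.EF.Syz
import Pool.Agent.Q36.EF.Tq

/-!
# Degenerate invariant hermitian forms on primitive symplectic torus quotients are semidefinite
-/

set_option autoImplicit false
set_option linter.unusedSectionVars false

namespace Q36.IS

open Pool.Agent.W594.SYZ2 Pool.Agent.W594.SYZ2.TQ

variable {V : Type*} [NormedAddCommGroup V] [NormedSpace ℂ V] [FiniteDimensional ℂ V]
  {Γ : Subgroup (V ≃ᵃ[ℂ] V)}

/-- The pullback of the symplectic form by an equivariant map is a multiple of it. -/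
theorem pull (hΓ : IsTorusQuotient Γ) {σ : V → V [⋀^Fin 2]→L[ℂ] ℂ} (hσ : IsForm Γ 2 σ)
    (huniq : ∀ ω, IsForm Γ 2 ω → ∃ c : ℂ, ω = c • σ) (P : V →ₗ[ℂ] V)
    (hP : ∀ γ ∈ Γ, ∀ v, P (γ.linear v) = γ.linear (P v)) :
    ∃ c : ℂ, ∀ y z, bil (σ 0) (P y) (P z) = c * bil (σ 0) y z := by
  let ω : V → V [⋀^Fin 2]→L[ℂ] ℂ := fun _ =>
    (σ 0).compContinuousLinearMap (LinearMap.toContinuousLinearMap P)
  have hω : ∀ v w, ω v w = σ 0 (fun i => P (w i)) := fun v w => rfl
  have hω2 : ∀ v x y, ω v ![x, y] = bil (σ 0) (P x) (P y) := by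
    intro v x y
    rw [hω v, bil_apply]
    congr 1
    funext i
    fin_cases i <;> rfl
  have hf : IsForm Γ 2 ω := by
    refine ⟨differentiable_const _, ?_⟩
    intro γ hγ v w
    rw [hω v, hω (γ v)]
    have h1 : (fun i => P (γ.linear (w i))) = fun i => γ.linear (P (w i)) := by
      funext i
      exact hP γ hγ _
    rw [h1]
    exact form_inv hΓ hσ γ hγ (fun i => P (w i))
  obtain ⟨c, hc⟩ := huniq ω hf
  refine ⟨c, fun y z => ?_⟩
  rw [← hω2 0, hc]
  rfl

/-- An invariant positive definite hermitian form. -/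
theorem exists_pos (hΓ : IsTorusQuotient Γ) : ∃ H₀ : V → V → ℂ, IsHermitian H₀ ∧
    IsPositiveForm H₀ ∧ ∀ γ ∈ Γ, ∀ v w, H₀ (γ.linear v) (γ.linear w) = H₀ v w := by
  have := finite_Lin hΓ
  have : Fintype (Lin Γ) := Fintype.ofFinite _
  let b := Module.finBasis ℂ V
  let B : V → V → ℂ := fun v w => ∑ i, b.repr v i * starRingEnd ℂ (b.repr w i)
  have hBd : ∀ v, (B v v).re = ∑ i, Complex.normSq (b.repr v i) := by
    intro v
    simp only [B, Complex.re_sum]
    refine Finset.sum_congr rfl fun i _ => ?_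
    rw [Complex.mul_conj, Complex.ofReal_re]
  have hBn : ∀ v, 0 ≤ (B v v).re := fun v => by
    rw [hBd]
    exact Finset.sum_nonneg fun i _ => Complex.normSq_nonneg _
  have hBp : ∀ v, v ≠ 0 → 0 < (B v v).re := by
    intro v hv
    refine lt_of_le_of_ne (hBn v) fun h => hv ?_
    rw [hBd] at h
    have h1 := (Finset.sum_eq_zero_iff_of_nonneg fun i _ => Complex.normSq_nonneg _).1 h.symm
    refine b.repr.map_eq_zero_iff.1 (Finsupp.ext fun i => ?_)
    exact Complex.normSq_eq_zero.1 (h1 i (Finset.mem_univ _))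
  refine ⟨fun v w => ∑ g : Lin Γ, B (g.1 v) (g.1 w), ⟨fun u v w => ?_, fun a v w => ?_,
    fun v w => ?_⟩, fun v hv => ?_, fun γ hγ v w => ?_⟩
  · rw [← Finset.sum_add_distrib]
    refine Finset.sum_congr rfl fun g _ => ?_
    simp only [B]
    rw [← Finset.sum_add_distrib]
    refine Finset.sum_congr rfl fun i _ => ?_
    rw [map_add, map_add, Finsupp.add_apply]
    ring
  · rw [Finset.mul_sum]
    refine Finset.sum_congr rfl fun g _ => ?_
    simp only [B]
    rw [Finset.mul_sum]
    refine Finset.sum_congr rfl fun i _ => ?_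
    rw [map_smul, map_smul, Finsupp.smul_apply, smul_eq_mul]
    ring
  · rw [map_sum]
    refine Finset.sum_congr rfl fun g _ => ?_
    simp only [B]
    rw [map_sum]
    refine Finset.sum_congr rfl fun i _ => ?_
    rw [map_mul, Complex.conj_conj]
    ring
  · rw [Complex.re_sum]
    refine Finset.sum_pos (fun g _ => hBp _ ?_) ⟨1, Finset.mem_univ _⟩
    intro h
    exact hv ((LinearEquiv.map_eq_zero_iff _).1 h)
  · let h : Lin Γ := ⟨γ.linear, γ, hγ, rfl⟩
    exact Fintype.sum_equiv (Equiv.mulRight h) _ _ fun g => rfl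

/-- Hermitian forms which agree on a basis. -/
theorem ext_basis {K K' : V → V → ℂ} (hK : IsHermitian K) (hK' : IsHermitian K') {ι : Type*}
    (b : Module.Basis ι ℂ V) {x x' : V} (h : ∀ j, K x (b j) = K' x' (b j)) (y : V) :
    K x y = K' x' y := by
  have h1 : hl hK x = hl hK' x' := by
    refine b.ext fun j => ?_
    change K (b j) x = K' (b j) x'
    rw [hK.symm x, hK'.symm x', h]
  have h2 : K y x = K' y x' := LinearMap.congr_fun h1 y
  rw [hK.symm y, hK'.symm y, h2]

/-- A hermitian form is given by an endomorphism. -/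
theorem exists_op {H₀ H : V → V → ℂ} (h₀ : IsHermitian H₀) (hp : IsPositiveForm H₀)
    (hH : IsHermitian H) : ∃ A : V →ₗ[ℂ] V, ∀ x y, H₀ (A x) y = H x y := by
  let b := Module.finBasis ℂ V
  let Φ₀ : V →ₗ[ℂ] (Fin (Module.finrank ℂ V) → ℂ) := LinearMap.pi fun j => hl h₀ (b j)
  let Φ : V →ₗ[ℂ] (Fin (Module.finrank ℂ V) → ℂ) := LinearMap.pi fun j => hl hH (b j)
  have hinj : Function.Injective Φ₀ := by
    rw [injective_iff_map_eq_zero]
    intro x hx
    by_contra hne
    have h1 : ∀ j, H₀ x (b j) = H₀ 0 (b j) := fun j => by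
      rw [h_zero_left h₀]
      exact congrFun hx j
    have h2 := ext_basis h₀ h₀ b h1 x
    rw [h_zero_left h₀] at h2
    have h3 := hp x hne
    rw [h2] at h3
    simp at h3
  have hsurj : Function.Surjective Φ₀ :=
    (LinearMap.injective_iff_surjective_of_finrank_eq_finrank (by simp)).1 hinj
  let e := LinearEquiv.ofBijective Φ₀ ⟨hinj, hsurj⟩
  refine ⟨e.symm.toLinearMap ∘ₗ Φ, fun x y => ?_⟩
  refine ext_basis h₀ hH b (fun j => ?_) y
  have h1 : Φ₀ (e.symm (Φ x)) = Φ x := e.apply_symm_apply (Φ x)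
  exact congrFun h1 j

/-- On a primitive symplectic torus quotient a degenerate invariant hermitian form is
semidefinite. -/
theorem sign (hΓ : IsPrimitiveSymplectic Γ) {H : V → V → ℂ} (hH : IsHermitian H)
    (hinv : ∀ γ ∈ Γ, ∀ v w, H (γ.linear v) (γ.linear w) = H v w) (hd : IsDegenerateForm H) :
    IsNefForm H ∨ IsNefForm fun v w => -H v w := by
  obtain ⟨H₀, h₀, hp, hinv₀⟩ := exists_pos hΓ.torus
  obtain ⟨A, hA⟩ := exists_op h₀ hp hH
  obtain ⟨σ, hσ, hnd, huniq⟩ := hΓ.symp
  have hzero : ∀ d, H₀ d d = 0 → d = 0 := by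
    intro d hd
    by_contra hne
    have h1 := hp d hne
    rw [hd] at h1
    simp at h1
  have heq : ∀ γ ∈ Γ, ∀ v, A (γ.linear v) = γ.linear (A v) := by
    intro γ hγ v
    rw [← sub_eq_zero]
    apply hzero
    set d := A (γ.linear v) - γ.linear (A v) with hd
    have h1 : ∀ y, H₀ d (γ.linear y) = 0 := by
      intro y
      rw [hd, h_sub_left h₀, hA, hinv₀ γ hγ, hA, hinv γ hγ, sub_self]
    have h2 := h1 (γ.linear.symm d)
    rwa [LinearEquiv.apply_symm_apply] at h2
  obtain ⟨x₀, hx₀, hx₀H⟩ := hd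
  have hAx₀ : A x₀ = 0 := by
    apply hzero
    rw [hA, hx₀H]
  have h1 : ∀ y z, bil (σ 0) (A y) (A z) = 0 :=
    fun y z => pull_zero hΓ.torus hσ hnd huniq A heq x₀ hx₀ hAx₀ y z
  obtain ⟨c, hc⟩ := pull hΓ.torus hσ huniq (LinearMap.id + A) (fun γ hγ v => by
    rw [LinearMap.add_apply, LinearMap.add_apply, LinearMap.id_apply, LinearMap.id_apply, map_add,
      heq γ hγ])
  have h2 : ∀ y z, bil (σ 0) (A y) z + bil (σ 0) y (A z) = (c - 1) * bil (σ 0) y z := by
    intro y z
    have h3 := hc y z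
    simp only [LinearMap.add_apply, LinearMap.id_apply, map_add] at h3
    rw [h1] at h3
    linear_combination h3
  have h3 : ∀ y, A (A y) = (c - 1) • A y := by
    intro y
    rw [← sub_eq_zero]
    refine hnd 0 _ fun z => ?_
    have h4 := h2 (A y) z
    rw [h1, add_zero] at h4
    rw [← bil_apply, map_sub, map_smul, LinearMap.sub_apply, LinearMap.smul_apply, h4, smul_eq_mul,
      sub_self]
  have him : ∀ (K : V → V → ℂ), IsHermitian K → ∀ x, (K x x).im = 0 := by
    intro K hK x
    have h4 := congrArg Complex.im (hK.symm x x)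
    rw [Complex.conj_im] at h4
    linarith
  have h4 : ∀ x, (c - 1).re * (H x x).re = (H₀ (A x) (A x)).re := by
    intro x
    have h5 : H₀ (A x) (A x) = starRingEnd ℂ ((c - 1) * H x x) := by
      rw [hA, hH.symm (A x) x, ← hA (A x) x, h3, h₀.smul_left, hA]
    rw [h5, Complex.conj_re, Complex.mul_re, him H hH, mul_zero, sub_zero]
  have h5 : ∀ x, 0 ≤ (H₀ (A x) (A x)).re := by
    intro x
    by_cases h : A x = 0
    · rw [h, h_zero_left h₀]
      simp
    · exact (hp _ h).le
  rcases lt_trichotomy (c - 1).re 0 with h | h | h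
  · refine Or.inr fun x => ?_
    have h6 := h5 x
    rw [← h4] at h6
    rw [Complex.neg_re]
    nlinarith
  · refine Or.inl fun x => ?_
    have h6 := h4 x
    rw [h, zero_mul] at h6
    have h7 : A x = 0 := by
      by_contra hne
      have := hp _ hne
      linarith
    rw [← hA, h7, h_zero_left h₀]
    simp
  · refine Or.inl fun x => ?_
    have h6 := h5 x
    rw [← h4] at h6
    nlinarith

end Q36.IS
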